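import Pool.Agent.W957.MF.Stm

/-! Project MF: the statements S_CHAIN and S_TOPIN. -/

namespace Pool.Agent.W362.MFChain

open Finset Pool.Agent.W957.MF

lemma sl_not (s : Bool) (x y : ℤ) : sl (!s) x y ↔ sl s y x := by
  cases s <;> simp [sl]

theorem t_TOPIN : S_TOPIN := by
  classical
  intro z S k hGP hP
  obtain ⟨c, hcS, hcne, hpin⟩ := hP
  have hex : ∀ j, ∃ t : Bool × Bool × Bool, 3 ≤ j → j ≤ k →
      (∀ i, 1 ≤ i → i < j → sl t.2.1 (z t.1 (c i)) (z t.1 (c j))) ∧
      (∀ i, 1 ≤ i → i + 1 < j → sl t.2.2 (z (!t.1) (c i)) (z (!t.1) (c j))) ∧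
      sl t.2.2 (z (!t.1) (c j)) (z (!t.1) (c (j - 1))) := by
    intro j
    by_cases h : 3 ≤ j ∧ j ≤ k
    · obtain ⟨a, s, s', h1, h2, h3⟩ := hpin j h.1 h.2
      exact ⟨(a, s, s'), fun _ _ => ⟨h1, h2, h3⟩⟩
    · exact ⟨(true, true, true), fun h1 h2 => absurd ⟨h1, h2⟩ h⟩
  choose t ht using hex
  refine ⟨fun b i => z b (c i), fun j b => if b = (t j).1 then (t j).2.1 else (t j).2.2,
    fun j => !(t j).1, ?_, ?_⟩
  · constructor
    · intro b x hx y hy hxy
      simp only [coe_Icc, Set.mem_Icc] at hx hy
      have h1 := hGP b (by exact_mod_cast hcS x hx.1 hx.2) (by exact_mod_cast hcS y hy.1 hy.2) hxy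
      rcases lt_trichotomy x y with h | h | h
      · exact absurd h1 (hcne x y hx.1 h hy.2)
      · exact h
      · exact absurd h1.symm (hcne y x hy.1 h hx.2)
    · intro j i b h3 hk h1 h2
      obtain ⟨ha, hb, hc⟩ := ht j h3 hk
      by_cases hbt : b = (t j).1
      · simp only [hbt, if_true]
        exact ha i h1 (by omega)
      · have hb' : b = !(t j).1 := by
          revert hbt
          cases b <;> cases (t j).1 <;> simp
        simp only [hbt, if_false]
        rw [hb']
        exact hb i h1 (by omega)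
    · intro j h3 hk
      obtain ⟨ha, hb, hc⟩ := ht j h3 hk
      simp only [Bool.not_not, if_true]
      exact ha (j - 1) (by omega) (by omega)
    · intro j h3 hk
      obtain ⟨ha, hb, hc⟩ := ht j h3 hk
      have hne : (!(t j).1) ≠ (t j).1 := by cases (t j).1 <;> simp
      simp only [hne, if_false]
      rw [sl_not]
      exact hc
  · intro m σ hocc
    obtain ⟨f, h1, h2, h3⟩ := hocc
    refine ⟨fun i => c (f i), fun i => ?_, h2, h3⟩
    have := h1 i
    rw [mem_Icc] at this
    exact hcS _ this.1 this.2

/-- key lemma: the last point separates the previous one from all others -/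
lemma sep {z : Conf} {S : Finset ℕ} (hGP : GP z S) {c : ℕ → ℕ} {k : ℕ} (hk : 4 ≤ k)
    (hcS : ∀ j, 1 ≤ j → j ≤ k → c j ∈ S)
    (hne : ∀ i j, 1 ≤ i → i < j → j ≤ k → c i ≠ c j)
    (hcut : CutAt z c k)
    (hP : ¬ ∃ b, ∃ i i', 1 ≤ i ∧ i + 1 < k ∧ 1 ≤ i' ∧ i' + 1 < k ∧ z b (c i) < z b (c k) ∧
      z b (c k) < z b (c i')) :
    ∃ b s', (∀ i, 1 ≤ i → i + 1 < k → sl s' (z b (c i)) (z b (c k))) ∧
      sl s' (z b (c k)) (z b (c (k - 1))) := by
  obtain ⟨b, u, v, hu1, huk, hv1, hvk, huc, hcv⟩ := hcut
  by_cases hu : u + 1 < k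
  · by_cases hv : v + 1 < k
    · exact absurd ⟨b, u, v, hu1, hu, hv1, hv, huc, hcv⟩ hP
    · -- v = k - 1
      have hv' : v = k - 1 := by omega
      subst hv'
      refine ⟨b, true, ?_, hcv⟩
      intro i hi1 hik
      show z b (c i) < z b (c k)
      by_contra hcon
      push Not at hcon
      have hne' : z b (c k) ≠ z b (c i) := fun h =>
        hne i k hi1 (by omega) le_rfl (hGP b (by exact_mod_cast hcS i hi1 (by omega))
          (by exact_mod_cast hcS k (by omega) le_rfl) h.symm)
      exact hP ⟨b, u, i, hu1, hu, hi1, hik, huc, lt_of_le_of_ne hcon hne'⟩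
  · have hu' : u = k - 1 := by omega
    by_cases hv : v + 1 < k
    · subst hu'
      refine ⟨b, false, ?_, huc⟩
      intro i hi1 hik
      show z b (c k) < z b (c i)
      by_contra hcon
      push Not at hcon
      have hne' : z b (c i) ≠ z b (c k) := fun h =>
        hne i k hi1 (by omega) le_rfl (hGP b (by exact_mod_cast hcS i hi1 (by omega))
          (by exact_mod_cast hcS k (by omega) le_rfl) h)
      exact hP ⟨b, i, v, hi1, hik, hv1, hv, lt_of_le_of_ne hcon hne', hcv⟩
    · have hv' : v = k - 1 := by omega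
      subst hu'
      subst hv'
      exact absurd (huc.trans hcv) (lt_irrefl _)

lemma cut_mono {z : Conf} {c : ℕ → ℕ} {j : ℕ} {c' : ℕ → ℕ} (h : ∀ i, i ≤ j → c' i = c i)
    (hc : CutAt z c j) : CutAt z c' j := by
  obtain ⟨b, u, v, hu1, huk, hv1, hvk, huc, hcv⟩ := hc
  refine ⟨b, u, v, hu1, huk, hv1, hvk, ?_, ?_⟩
  · rw [h u huk.le, h j le_rfl]; exact huc
  · rw [h v hvk.le, h j le_rfl]; exact hcv

/-- chains -/
def Ch (z : Conf) (S : Finset ℕ) (p1 p2 r : ℕ) (m : ℕ) (c : ℕ → ℕ) : Prop :=
  3 ≤ m ∧ c 1 = p1 ∧ c 2 = p2 ∧ c m = r ∧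
    (∀ j, 1 ≤ j → j ≤ m → c j ∈ S) ∧
    (∀ i j, 1 ≤ i → i < j → j ≤ m → c i ≠ c j) ∧
    (∀ j, 3 ≤ j → j ≤ m → CutAt z c j)

lemma exists_chain (z : Conf) (S : Finset ℕ) (p1 p2 r : ℕ) (hS : SimpleSet z S)
    (h1 : p1 ∈ S) (h2 : p2 ∈ S) (hr : r ∈ S) (h12 : p1 ≠ p2) (hr1 : r ≠ p1) (hr2 : r ≠ p2) :
    ∃ m c, Ch z S p1 p2 r m c := by
  classical
  have key : ∀ n : ℕ, (∃ m c, Ch z S p1 p2 r m c) ∨ ∃ c : ℕ → ℕ, c 1 = p1 ∧ c 2 = p2 ∧
      (∀ j, 1 ≤ j → j ≤ n + 2 → c j ∈ S ∧ c j ≠ r) ∧
      (∀ i j, 1 ≤ i → i < j → j ≤ n + 2 → c i ≠ c j) ∧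
      (∀ j, 3 ≤ j → j ≤ n + 2 → CutAt z c j) := by
    intro n
    induction n with
    | zero =>
      right
      refine ⟨fun j => if j = 1 then p1 else p2, by simp, by simp, ?_, ?_, ?_⟩
      · intro j hj1 hj2
        by_cases h : j = 1
        · simp [h, h1, hr1.symm]
        · simp [h, h2, hr2.symm]
      · intro i j hi hij hj
        have hi' : i = 1 := by omega
        have hj' : j ≠ 1 := by omega
        simp [hi', hj', h12]
      · intro j hj3 hj; omega
    | succ n ih =>
      rcases ih with ih | ⟨c, hc1, hc2, hcS, hcne, hcut⟩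
      · exact Or.inl ih
      set Y := (Icc 1 (n + 2)).image c with hY
      have hinj : Set.InjOn c (Icc 1 (n + 2) : Finset ℕ) := by
        intro x hx y hy hxy
        simp only [coe_Icc, Set.mem_Icc] at hx hy
        rcases lt_trichotomy x y with h | h | h
        · exact absurd hxy (hcne x y hx.1 h hy.2)
        · exact h
        · exact absurd hxy.symm (hcne y x hy.1 h hx.2)
      have hcard : Y.card = n + 2 := by
        rw [hY, card_image_of_injOn hinj, Nat.card_Icc]; omega
      have hYS : Y ⊆ S := by
        intro y hy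
        rw [hY, mem_image] at hy
        obtain ⟨j, hj, rfl⟩ := hy
        rw [mem_Icc] at hj
        exact (hcS j hj.1 hj.2).1
      have hrY : r ∉ Y := by
        intro hy
        rw [hY, mem_image] at hy
        obtain ⟨j, hj, hjr⟩ := hy
        rw [mem_Icc] at hj
        exact (hcS j hj.1 hj.2).2 hjr
      have hYne : Y ≠ S := fun h => hrY (h ▸ hr)
      obtain ⟨w, hwS, hwY, b, a, haY, d, hdY, hab, hbd⟩ := hS Y hYS (by omega) hYne
      rw [hY, mem_image] at haY hdY
      obtain ⟨ia, hia, rfl⟩ := haY
      obtain ⟨id, hid, rfl⟩ := hdY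
      rw [mem_Icc] at hia hid
      set c' : ℕ → ℕ := fun j => if j = n + 3 then w else c j with hc'
      have hc'e : ∀ j, j ≤ n + 2 → c' j = c j := by
        intro j hj
        have : j ≠ n + 3 := by omega
        simp [hc', this]
      have hc'w : c' (n + 3) = w := by simp [hc']
      have hc'1 : c' 1 = p1 := by rw [hc'e 1 (by omega), hc1]
      have hc'2 : c' 2 = p2 := by rw [hc'e 2 (by omega), hc2]
      have hc'S : ∀ j, 1 ≤ j → j ≤ n + 3 → c' j ∈ S := by
        intro j hj1 hj2
        by_cases h : j = n + 3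
        · rw [h, hc'w]; exact hwS
        · rw [hc'e j (by omega)]; exact (hcS j hj1 (by omega)).1
      have hc'ne : ∀ i j, 1 ≤ i → i < j → j ≤ n + 3 → c' i ≠ c' j := by
        intro i j hi hij hj
        by_cases h : j = n + 3
        · rw [h, hc'w, hc'e i (by omega)]
          intro heq
          apply hwY
          rw [← heq, hY]
          exact mem_image_of_mem _ (mem_Icc.2 ⟨hi, by omega⟩)
        · rw [hc'e i (by omega), hc'e j (by omega)]
          exact hcne i j hi hij (by omega)
      have hc'cut : ∀ j, 3 ≤ j → j ≤ n + 3 → CutAt z c' j := by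
        intro j hj3 hj
        by_cases h : j = n + 3
        · subst h
          refine ⟨b, ia, id, hia.1, by omega, hid.1, by omega, ?_, ?_⟩
          · rw [hc'w, hc'e ia hia.2]; exact hab
          · rw [hc'w, hc'e id hid.2]; exact hbd
        · exact cut_mono (fun i hi => hc'e i (by omega)) (hcut j hj3 (by omega))
      by_cases hwr : w = r
      · left
        exact ⟨n + 3, c', by omega, hc'1, hc'2, by rw [hc'w, hwr], hc'S, hc'ne, hc'cut⟩
      · right
        refine ⟨c', hc'1, hc'2, ?_, ?_, ?_⟩
        · intro j hj1 hj2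
          refine ⟨hc'S j hj1 (by omega), ?_⟩
          by_cases h : j = n + 3
          · rw [h, hc'w]; exact hwr
          · rw [hc'e j (by omega)]; exact (hcS j hj1 (by omega)).2
        · intro i j hi hij hj
          exact hc'ne i j hi hij (by omega)
        · intro j hj3 hj
          exact hc'cut j hj3 (by omega)
  rcases key S.card with h | ⟨c, -, -, hcS, hcne, -⟩
  · exact h
  exfalso
  have hinj : Set.InjOn c (Icc 1 (S.card + 2) : Finset ℕ) := by
    intro x hx y hy hxy
    simp only [coe_Icc, Set.mem_Icc] at hx hy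
    rcases lt_trichotomy x y with h | h | h
    · exact absurd hxy (hcne x y hx.1 h hy.2)
    · exact h
    · exact absurd hxy.symm (hcne y x hy.1 h hx.2)
  have h3 := card_le_card_of_injOn c (s := Icc 1 (S.card + 2)) (t := S) (by
    intro j hj
    simp only [coe_Icc, Set.mem_Icc] at hj
    exact (hcS j hj.1 hj.2).1) hinj
  rw [Nat.card_Icc] at h3
  omega

theorem t_CHAIN : S_CHAIN := by
  classical
  intro z S p1 p2 r hGP hS h1 h2 hr h12 hr1 hr2
  have hex := exists_chain z S p1 p2 r hS h1 h2 hr h12 hr1 hr2
  set m := Nat.find hex with hm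
  obtain ⟨c, hm3, hc1, hc2, hcm, hcS, hcne, hcut⟩ := Nat.find_spec hex
  rw [← hm] at hm3 hcm hcS hcne hcut
  have hmin : ∀ m', m' < m → ¬ ∃ c, Ch z S p1 p2 r m' c := fun m' h => Nat.find_min hex h
  -- the claim P
  have hP : ∀ d k, k + d = m → 4 ≤ k → ¬ ∃ b, ∃ i i', 1 ≤ i ∧ i + 1 < k ∧ 1 ≤ i' ∧ i' + 1 < k ∧
      z b (c i) < z b (c k) ∧ z b (c k) < z b (c i') := by
    intro d
    induction d using Nat.strong_induction_on with
    | _ d ih =>
      intro k hkd hk4 hbad
      obtain ⟨b, u, v, hu1, huk, hv1, hvk, huc, hcv⟩ := hbad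
      -- drop k - 1
      refine hmin (m - 1) (by omega) ⟨fun j => if j < k - 1 then c j else c (j + 1), ?_, ?_, ?_,
        ?_, ?_, ?_, ?_⟩
      · omega
      · have : (1 : ℕ) < k - 1 := by omega
        simp [this, hc1]
      · have : (2 : ℕ) < k - 1 := by omega
        simp [this, hc2]
      · have h3 : ¬ (m - 1 < k - 1) := by omega
        have h4 : m - 1 + 1 = m := by omega
        simp only [h3, if_false, h4, hcm]
      · intro j hj1 hj2
        by_cases h : j < k - 1
        · simp only [h, if_true]; exact hcS j hj1 (by omega)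
        · simp only [h, if_false]; exact hcS (j + 1) (by omega) (by omega)
      · intro i j hi hij hj
        by_cases h : i < k - 1 <;> by_cases h' : j < k - 1
        · simp only [h, h', if_true]; exact hcne i j hi hij (by omega)
        · simp only [h, h', if_true, if_false]; exact hcne i (j + 1) hi (by omega) (by omega)
        · omega
        · simp only [h, h', if_false]; exact hcne (i + 1) (j + 1) (by omega) (by omega) (by omega)
      · intro j hj3 hj
        by_cases h : j < k - 1
        · refine cut_mono (c := c) (fun i hi => ?_) (hcut j hj3 (by omega))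
          have : i < k - 1 := by omega
          simp [this]
        · by_cases hjk : j = k - 1
          · -- c k cuts c 1..c (k-2)
            refine ⟨b, u, v, hu1, by omega, hv1, by omega, ?_, ?_⟩
            · have e1 : u < k - 1 := by omega
              have e2 : j + 1 = k := by omega
              simp only [e1, h, if_true, if_false, e2]
              exact huc
            · have e1 : v < k - 1 := by omega
              have e2 : j + 1 = k := by omega
              simp only [e1, h, if_true, if_false, e2]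
              exact hcv
          · -- j ≥ k, the point c (j+1)
            have hPj := ih (m - (j + 1)) (by omega) (j + 1) (by omega) (by omega)
            obtain ⟨b', s', g1, g2⟩ := sep hGP (k := j + 1) (by omega)
              (fun i hi1 hi2 => hcS i hi1 (by omega))
              (fun i i' hi hii hi' => hcne i i' hi hii (by omega)) (hcut (j + 1) (by omega) (by omega))
              hPj
            have e1 : (1 : ℕ) < k - 1 := by omega
            have e3 : ¬ (j - 1 < k - 1) := by omega
            have e4 : j - 1 + 1 = j := by omega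
            have g1' := g1 1 le_rfl (by omega)
            rw [show j + 1 - 1 = j by omega] at g2
            cases s' with
            | true =>
              refine ⟨b', 1, j - 1, le_rfl, by omega, by omega, by omega, ?_, ?_⟩
              · simp only [e1, h, if_true, if_false]; exact g1'
              · simp only [e3, h, if_false, e4]; exact g2
            | false =>
              refine ⟨b', j - 1, 1, by omega, by omega, le_rfl, by omega, ?_, ?_⟩
              · simp only [e3, h, if_false, e4]; exact g2
              · simp only [e1, h, if_true, if_false]; exact g1'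
  have hsep : ∀ k, 4 ≤ k → k ≤ m → ∃ b s', (∀ i, 1 ≤ i → i + 1 < k →
      sl s' (z b (c i)) (z b (c k))) ∧ sl s' (z b (c k)) (z b (c (k - 1))) := by
    intro k hk4 hkm
    exact sep hGP hk4 (fun i hi1 hi2 => hcS i hi1 (by omega))
      (fun i i' hi hii hi' => hcne i i' hi hii (by omega)) (hcut k (by omega) hkm)
      (hP (m - k) k (by omega) hk4)
  have hax : ∀ k, 4 ≤ k → ∀ b s', (∀ i, 1 ≤ i → i + 1 < k →
      sl s' (z b (c i)) (z b (c k))) → sl s' (z b (c k)) (z b (c (k - 1))) →
      ∀ b₁ u v, 1 ≤ u → u < k - 1 → 1 ≤ v → v < k - 1 → z b₁ (c u) < z b₁ (c (k - 1)) →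
        z b₁ (c (k - 1)) < z b₁ (c v) → b₁ = !b := by
    intro k hk4 b s' g1 g2 b₁ u v hu1 huk hv1 hvk huc hcv
    by_contra hb
    have hb' : b₁ = b := by
      revert hb
      cases b₁ <;> cases b <;> simp
    subst hb'
    cases s' with
    | true =>
      have a1 : z b₁ (c v) < z b₁ (c k) := g1 v hv1 (by omega)
      have a2 : z b₁ (c k) < z b₁ (c (k - 1)) := g2
      omega
    | false =>
      have a1 : z b₁ (c k) < z b₁ (c u) := g1 u hu1 (by omega)
      have a2 : z b₁ (c (k - 1)) < z b₁ (c k) := g2
      omega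
  refine ⟨m, c, hm3, hc1, hc2, hcm, hcS, hcne, hcut, ?_, ?_⟩
  · intro k hk4 hkm
    obtain ⟨b, s', g1, g2⟩ := hsep k hk4 hkm
    obtain ⟨b₁, u, v, hu1, huk, hv1, hvk, huc, hcv⟩ := hcut (k - 1) (by omega) (by omega)
    have hb₁ := hax k hk4 b s' g1 g2 b₁ u v hu1 huk hv1 hvk huc hcv
    subst hb₁
    have hPk := hP (m - k) k (by omega) hk4
    have hdist : ∀ i, 1 ≤ i → i < k → z (!b) (c i) ≠ z (!b) (c k) := fun i hi1 hik h =>
      hcne i k hi1 hik hkm (hGP (!b) (by exact_mod_cast hcS i hi1 (by omega))
        (by exact_mod_cast hcS k (by omega) hkm) h)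
    rcases lt_or_gt_of_ne (hdist u hu1 (by omega)) with hlt | hgt
    · -- beyond: all i ≤ k - 2 have z (c i) < z (c k)
      have hall : ∀ i, 1 ≤ i → i + 1 < k → z (!b) (c i) < z (!b) (c k) := by
        intro i hi1 hik
        by_contra hcon
        push Not at hcon
        exact hPk ⟨!b, u, i, hu1, by omega, hi1, hik, hlt,
          lt_of_le_of_ne hcon (hdist i hi1 (by omega)).symm⟩
      refine ⟨!b, true, s', ?_, ?_, ?_⟩
      · intro i hi1 hik
        show z (!b) (c i) < z (!b) (c k)
        by_cases h : i + 1 < k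
        · exact hall i hi1 h
        · have : i = k - 1 := by omega
          subst this
          exact hcv.trans (hall v hv1 (by omega))
      · intro i hi1 hik
        rw [Bool.not_not]
        exact g1 i hi1 hik
      · rw [Bool.not_not]
        exact g2
    · have hall : ∀ i, 1 ≤ i → i + 1 < k → z (!b) (c k) < z (!b) (c i) := by
        intro i hi1 hik
        by_contra hcon
        push Not at hcon
        exact hPk ⟨!b, i, u, hi1, hik, hu1, by omega,
          lt_of_le_of_ne hcon (hdist i hi1 (by omega)), hgt⟩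
      refine ⟨!b, false, s', ?_, ?_, ?_⟩
      · intro i hi1 hik
        show z (!b) (c k) < z (!b) (c i)
        by_cases h : i + 1 < k
        · exact hall i hi1 h
        · have : i = k - 1 := by omega
          subst this
          exact (hall u hu1 (by omega)).trans huc
      · intro i hi1 hik
        rw [Bool.not_not]
        exact g1 i hi1 hik
      · rw [Bool.not_not]
        exact g2
  · intro hm4
    obtain ⟨b, s', g1, g2⟩ := hsep 4 le_rfl hm4
    obtain ⟨b₁, u, v, hu1, huk, hv1, hvk, huc, hcv⟩ := hcut 3 le_rfl (by omega)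
    have hb₁ := hax 4 le_rfl b s' g1 g2 b₁ u v hu1 huk hv1 hvk huc hcv
    subst hb₁
    have a1 := g1 1 le_rfl (by omega)
    have a2 := g1 2 (by omega) (by omega)
    have a3 : sl s' (z b (c 4)) (z b (c 3)) := g2
    have huv : u ≠ v := by
      intro h
      subst h
      exact absurd (huc.trans hcv) (lt_irrefl _)
    have hsl : ∀ x y w : ℤ, sl s' x y → sl s' y w → sl s' x w := by
      intro x y w
      cases s' with
      | true => exact fun h h' => lt_trans (show x < y from h) h'
      | false => exact fun h h' => lt_trans (show w < y from h') h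
    have hu12 : u = 1 ∨ u = 2 := by omega
    have hfirst : ∀ i, 1 ≤ i → i < 3 → sl s' (z b (c i)) (z b (c 3)) := by
      intro i hi1 hi3
      have : i = 1 ∨ i = 2 := by omega
      rcases this with rfl | rfl
      · exact hsl _ _ _ a1 a3
      · exact hsl _ _ _ a2 a3
    rcases hu12 with h | h
    · have hv' : v = 2 := by omega
      subst h; subst hv'
      refine ⟨b, s', true, hfirst, ?_, hcv⟩
      intro i hi1 hi3
      have : i = 1 := by omega
      subst this
      exact huc
    · have hv' : v = 1 := by omega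
      subst h; subst hv'
      refine ⟨b, s', false, hfirst, ?_, huc⟩
      intro i hi1 hi3
      have : i = 1 := by omega
      subst this
      exact hcv

end Pool.Agent.W362.MFChain
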